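import Mathlib

set_option autoImplicit false

open Matrix

namespace Pool.Agent.Results.MP_3865e9_co.SixTransfer

/-- An oriented graph on `V`: a finite simple graph in which every edge has a direction. -/
structure OGraph (V : Type) where
  /-- `arc a b`: the edge `{a, b}` is present and points from `a` to `b` -/
  arc : V → V → Prop
  asymm : ∀ a b, arc a b → ¬ arc b a

open Classical in
/-- The skew adjacency matrix `S`, with complex entries. -/
noncomputable def OGraph.skewAdj {V : Type} (X : OGraph V) : Matrix V V ℂ :=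
  Matrix.of fun a b => if X.arc a b then 1 else if X.arc b a then -1 else 0

/-- The Hermitian matrix `M = i S`. -/
noncomputable def OGraph.herm {V : Type} (X : OGraph V) : Matrix V V ℂ :=
  Complex.I • X.skewAdj

/-- The transition matrix `U(t) = exp(i t M)`. -/
noncomputable def OGraph.U {V : Type} [Fintype V] [DecidableEq V] (X : OGraph V) (t : ℝ) :
    Matrix V V ℂ :=
  NormedSpace.exp ((Complex.I * (t : ℂ)) • X.herm)

/-- Perfect state transfer from `a` to `b` at time `t`. -/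
def PSTAt {V : Type} [Fintype V] [DecidableEq V] (X : OGraph V) (a b : V) (t : ℝ) : Prop :=
  ∃ α : ℂ, X.U t *ᵥ (Pi.single a 1 : V → ℂ) = α • (Pi.single b 1 : V → ℂ)

/-- Multiple state transfer on `S`. -/
def MST {V : Type} [Fintype V] [DecidableEq V] (X : OGraph V) (S : Finset V) : Prop :=
  2 < S.card ∧ ∀ a ∈ S, ∀ b ∈ S, a ≠ b → ∃ t : ℝ, PSTAt X a b t

/-! ### a Banach algebra lemma -/

theorem exp_mul_rot {𝔸 : Type*} [NormedRing 𝔸] [NormedAlgebra ℝ 𝔸] [CompleteSpace 𝔸]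
    {a p q : 𝔸} {w : ℝ} (h1 : a * p = w • q) (h2 : a * q = -(w • p)) (t : ℝ) :
    NormedSpace.exp (t • a) * p = Real.cos (w * t) • p + Real.sin (w * t) • q := by
  have hder : ∀ u : ℝ, HasDerivAt
      (fun u : ℝ => NormedSpace.exp (u • (-a)) * (Real.cos (w * u) • p + Real.sin (w * u) • q))
      0 u := by
    intro u
    have e1 := hasDerivAt_exp_smul_const (𝕂 := ℝ) (-a) u
    have e2 : HasDerivAt (fun u : ℝ => Real.cos (w * u) • p + Real.sin (w * u) • q)
        ((-Real.sin (w * u) * w) • p + (Real.cos (w * u) * w) • q) u := by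
      have f0 : HasDerivAt (fun u : ℝ => w * u) w u := by
        simpa using (hasDerivAt_id u).const_mul w
      exact ((f0.cos).smul_const p).add ((f0.sin).smul_const q)
    have e3 : HasDerivAt
      (fun u : ℝ => NormedSpace.exp (u • (-a)) * (Real.cos (w * u) • p + Real.sin (w * u) • q))
      (NormedSpace.exp (u • -a) * -a * (Real.cos (w * u) • p + Real.sin (w * u) • q) +
        NormedSpace.exp (u • -a) * ((-Real.sin (w * u) * w) • p + (Real.cos (w * u) * w) • q))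
      u := e1.mul e2
    have e4 : NormedSpace.exp (u • -a) * -a * (Real.cos (w * u) • p + Real.sin (w * u) • q) +
        NormedSpace.exp (u • -a) * ((-Real.sin (w * u) * w) • p + (Real.cos (w * u) * w) • q)
        = 0 := by
      rw [mul_assoc, ← mul_add, neg_mul, mul_add a, mul_smul_comm, mul_smul_comm, h1, h2]
      have : -(Real.cos (w * u) • w • q + Real.sin (w * u) • -(w • p)) +
          ((-Real.sin (w * u) * w) • p + (Real.cos (w * u) * w) • q) = 0 := by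
        rw [smul_smul, smul_neg, smul_smul]
        module
      rw [this, mul_zero]
    rwa [e4] at e3
  have hconst := is_const_of_deriv_eq_zero (fun u => (hder u).differentiableAt)
    (fun u => (hder u).deriv) t 0
  simp only [zero_smul, NormedSpace.exp_zero, mul_zero, Real.cos_zero, Real.sin_zero, one_smul,
    add_zero, one_mul] at hconst
  have hinv : NormedSpace.exp (t • a) * NormedSpace.exp (t • (-a)) = 1 := by
    let _ : NormedAlgebra ℚ 𝔸 := NormedAlgebra.restrictScalars ℚ ℝ 𝔸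
    rw [smul_neg, ← NormedSpace.exp_add_of_commute (Commute.neg_right (Commute.refl _)),
      add_neg_cancel, NormedSpace.exp_zero]
  calc NormedSpace.exp (t • a) * p
      = NormedSpace.exp (t • a) * (NormedSpace.exp (t • (-a)) *
          (Real.cos (w * t) • p + Real.sin (w * t) • q)) := by rw [hconst]
    _ = _ := by rw [← mul_assoc, hinv, one_mul]

theorem matrix_exp_mul_rot {V : Type} [Fintype V] [DecidableEq V] {a p q : Matrix V V ℂ} {w : ℝ}
    (h1 : a * p = w • q) (h2 : a * q = -(w • p)) (t : ℝ) :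
    NormedSpace.exp (t • a) * p = Real.cos (w * t) • p + Real.sin (w * t) • q := by
  let _ : NormedRing (Matrix V V ℂ) := Matrix.linftyOpNormedRing
  let _ : NormedAlgebra ℝ (Matrix V V ℂ) := Matrix.linftyOpNormedAlgebra
  exact exp_mul_rot h1 h2 t

theorem exp_mulVec_rot {V : Type} [Fintype V] [DecidableEq V] [Nonempty V] {a : Matrix V V ℂ}
    {p q : V → ℂ} {w : ℝ}
    (h1 : a *ᵥ p = w • q) (h2 : a *ᵥ q = -(w • p)) (t : ℝ) :
    NormedSpace.exp (t • a) *ᵥ p = Real.cos (w * t) • p + Real.sin (w * t) • q := by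
  obtain ⟨v0⟩ := ‹Nonempty V›
  have e1 : a * Matrix.vecMulVec p (Pi.single v0 1) = w • Matrix.vecMulVec q (Pi.single v0 1) := by
    rw [Matrix.mul_vecMulVec, h1, Matrix.smul_vecMulVec]
  have e2 : a * Matrix.vecMulVec q (Pi.single v0 1) =
      -(w • Matrix.vecMulVec p (Pi.single v0 1)) := by
    rw [Matrix.mul_vecMulVec, h2, Matrix.neg_vecMulVec, Matrix.smul_vecMulVec]
  have e3 := matrix_exp_mul_rot e1 e2 t
  rw [Matrix.mul_vecMulVec] at e3
  funext i
  have e4 := congrFun (congrFun e3 i) v0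
  simpa [Matrix.vecMulVec_apply] using e4

/-! ### the example -/

/-- the vertices: `(s, 0)`, `s < 6`, and six cells `(s, c)`, `1 ≤ c ≤ 27` -/
abbrev V : Type := Fin 6 × Fin 28

/-- the arcs from `(s, c)` to `(s', c')` -/
def arcN (s c s' c' : ℕ) : Bool :=
  if c = 0 then
    if c' = 0 then (s' == (s + 4) % 6)
    else ((s' + 6 - s) % 6 == 3 || (s' + 6 - s) % 6 == 5)
  else
    if c' = 0 then ((s + 6 - s') % 6 == 0 || (s + 6 - s') % 6 == 1)
    else (((s + 6 - s') % 6 == 1) && decide ((c + 27 - c') % 27 < 12)) ||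
      (((s + 6 - s') % 6 == 2) && decide ((c + 27 - c') % 27 < 7))

/-- the arcs as a relation on the vertices -/
def arcB (u v : V) : Bool := arcN u.1 u.2 v.1 v.2

theorem arcB_asymm : ∀ a b, arcB a b = true → ¬ arcB b a = true := by decide +kernel

/-- the oriented graph of the example -/
def X : OGraph V := ⟨fun a b => arcB a b = true, arcB_asymm⟩

/-- minus the skew adjacency matrix, with integer entries -/
def kz (v u : V) : ℤ := if arcB v u = true then -1 else if arcB u v = true then 1 else 0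

/-- the cell of a vertex -/
def cell (v : V) : Fin 12 := if v.2 = 0 then ⟨2 * v.1, by omega⟩ else ⟨2 * v.1 + 1, by omega⟩

/-- the quotient matrix -/
def B : Matrix (Fin 12) (Fin 12) ℤ := Matrix.of ![
  ![0, 27, 0, 27, 1, 0, 0, -27, -1, 0, 0, -27],
  ![-1, 0, 1, 12, 0, 7, 1, 0, 0, -7, -1, -12],
  ![0, -27, 0, 27, 0, 27, 1, 0, 0, -27, -1, 0],
  ![-1, -12, -1, 0, 1, 12, 0, 7, 1, 0, 0, -7],
  ![-1, 0, 0, -27, 0, 27, 0, 27, 1, 0, 0, -27],
  ![0, -7, -1, -12, -1, 0, 1, 12, 0, 7, 1, 0],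
  ![0, -27, -1, 0, 0, -27, 0, 27, 0, 27, 1, 0],
  ![1, 0, 0, -7, -1, -12, -1, 0, 1, 12, 0, 7],
  ![1, 0, 0, -27, -1, 0, 0, -27, 0, 27, 0, 27],
  ![0, 7, 1, 0, 0, -7, -1, -12, -1, 0, 1, 12],
  ![0, 27, 1, 0, 0, -27, -1, 0, 0, -27, 0, 27],
  ![1, 12, 0, 7, 1, 0, 0, -7, -1, -12, -1, 0]]

/-- spectral parts of the basis vectors of the quotient (times 432) -/
def P : Fin 6 → Fin 6 → Fin 12 → ℤ := ![
  ![![72, 0, 72, 0, 72, 0, 72, 0, 72, 0, 72, 0],
    ![126, -6, 63, 3, -63, 9, -126, 6, -63, -3, 63, -9],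
    ![108, -12, -54, 6, -54, 6, 108, -12, -54, 6, -54, 6],
    ![72, 0, -72, 0, 72, 0, -72, 0, 72, 0, -72, 0],
    ![36, 12, -18, -6, -18, -6, 36, 12, -18, -6, -18, -6],
    ![18, 6, 9, -3, -9, -9, -18, -6, -9, 3, 9, 9]],
  ![![72, 0, 72, 0, 72, 0, 72, 0, 72, 0, 72, 0],
    ![63, -9, 126, -6, 63, 3, -63, 9, -126, 6, -63, -3],
    ![-54, 6, 108, -12, -54, 6, -54, 6, 108, -12, -54, 6],
    ![-72, 0, 72, 0, -72, 0, 72, 0, -72, 0, 72, 0],
    ![-18, -6, 36, 12, -18, -6, -18, -6, 36, 12, -18, -6],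
    ![9, 9, 18, 6, 9, -3, -9, -9, -18, -6, -9, 3]],
  ![![72, 0, 72, 0, 72, 0, 72, 0, 72, 0, 72, 0],
    ![-63, -3, 63, -9, 126, -6, 63, 3, -63, 9, -126, 6],
    ![-54, 6, -54, 6, 108, -12, -54, 6, -54, 6, 108, -12],
    ![72, 0, -72, 0, 72, 0, -72, 0, 72, 0, -72, 0],
    ![-18, -6, -18, -6, 36, 12, -18, -6, -18, -6, 36, 12],
    ![-9, 3, 9, 9, 18, 6, 9, -3, -9, -9, -18, -6]],
  ![![72, 0, 72, 0, 72, 0, 72, 0, 72, 0, 72, 0],
    ![-126, 6, -63, -3, 63, -9, 126, -6, 63, 3, -63, 9],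
    ![108, -12, -54, 6, -54, 6, 108, -12, -54, 6, -54, 6],
    ![-72, 0, 72, 0, -72, 0, 72, 0, -72, 0, 72, 0],
    ![36, 12, -18, -6, -18, -6, 36, 12, -18, -6, -18, -6],
    ![-18, -6, -9, 3, 9, 9, 18, 6, 9, -3, -9, -9]],
  ![![72, 0, 72, 0, 72, 0, 72, 0, 72, 0, 72, 0],
    ![-63, 9, -126, 6, -63, -3, 63, -9, 126, -6, 63, 3],
    ![-54, 6, 108, -12, -54, 6, -54, 6, 108, -12, -54, 6],
    ![72, 0, -72, 0, 72, 0, -72, 0, 72, 0, -72, 0],
    ![-18, -6, 36, 12, -18, -6, -18, -6, 36, 12, -18, -6],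
    ![-9, -9, -18, -6, -9, 3, 9, 9, 18, 6, 9, -3]],
  ![![72, 0, 72, 0, 72, 0, 72, 0, 72, 0, 72, 0],
    ![63, 3, -63, 9, -126, 6, -63, -3, 63, -9, 126, -6],
    ![-54, 6, -54, 6, 108, -12, -54, 6, -54, 6, 108, -12],
    ![-72, 0, 72, 0, -72, 0, 72, 0, -72, 0, 72, 0],
    ![-18, -6, -18, -6, 36, 12, -18, -6, -18, -6, 36, 12],
    ![9, -3, -9, -9, -18, -6, -9, 3, 9, 9, 18, 6]]]

/-- their images (times 432 / (6k)) -/
def R : Fin 6 → Fin 6 → Fin 12 → ℤ := ![
  ![![0, 0, 0, 0, 0, 0, 0, 0, 0, 0, 0, 0],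
    ![0, -4, 63, -5, 63, -1, 0, 4, -63, 5, -63, 1],
    ![0, 0, 54, -6, -54, 6, 0, 0, 54, -6, -54, 6],
    ![0, -8, 0, 8, 0, -8, 0, 8, 0, -8, 0, 8],
    ![0, 0, -18, -6, 18, 6, 0, 0, -18, -6, 18, 6],
    ![0, -4, -9, -5, -9, -1, 0, 4, 9, 5, 9, 1]],
  ![![0, 0, 0, 0, 0, 0, 0, 0, 0, 0, 0, 0],
    ![-63, 1, 0, -4, 63, -5, 63, -1, 0, 4, -63, 5],
    ![-54, 6, 0, 0, 54, -6, -54, 6, 0, 0, 54, -6],
    ![0, 8, 0, -8, 0, 8, 0, -8, 0, 8, 0, -8],
    ![18, 6, 0, 0, -18, -6, 18, 6, 0, 0, -18, -6],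
    ![9, 1, 0, -4, -9, -5, -9, -1, 0, 4, 9, 5]],
  ![![0, 0, 0, 0, 0, 0, 0, 0, 0, 0, 0, 0],
    ![-63, 5, -63, 1, 0, -4, 63, -5, 63, -1, 0, 4],
    ![54, -6, -54, 6, 0, 0, 54, -6, -54, 6, 0, 0],
    ![0, -8, 0, 8, 0, -8, 0, 8, 0, -8, 0, 8],
    ![-18, -6, 18, 6, 0, 0, -18, -6, 18, 6, 0, 0],
    ![9, 5, 9, 1, 0, -4, -9, -5, -9, -1, 0, 4]],
  ![![0, 0, 0, 0, 0, 0, 0, 0, 0, 0, 0, 0],
    ![0, 4, -63, 5, -63, 1, 0, -4, 63, -5, 63, -1],
    ![0, 0, 54, -6, -54, 6, 0, 0, 54, -6, -54, 6],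
    ![0, 8, 0, -8, 0, 8, 0, -8, 0, 8, 0, -8],
    ![0, 0, -18, -6, 18, 6, 0, 0, -18, -6, 18, 6],
    ![0, 4, 9, 5, 9, 1, 0, -4, -9, -5, -9, -1]],
  ![![0, 0, 0, 0, 0, 0, 0, 0, 0, 0, 0, 0],
    ![63, -1, 0, 4, -63, 5, -63, 1, 0, -4, 63, -5],
    ![-54, 6, 0, 0, 54, -6, -54, 6, 0, 0, 54, -6],
    ![0, -8, 0, 8, 0, -8, 0, 8, 0, -8, 0, 8],
    ![18, 6, 0, 0, -18, -6, 18, 6, 0, 0, -18, -6],
    ![-9, -1, 0, 4, 9, 5, 9, 1, 0, -4, -9, -5]],
  ![![0, 0, 0, 0, 0, 0, 0, 0, 0, 0, 0, 0],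
    ![63, -5, 63, -1, 0, 4, -63, 5, -63, 1, 0, -4],
    ![54, -6, -54, 6, 0, 0, 54, -6, -54, 6, 0, 0],
    ![0, 8, 0, -8, 0, 8, 0, -8, 0, 8, 0, -8],
    ![-18, -6, 18, 6, 0, 0, -18, -6, 18, 6, 0, 0],
    ![-9, -5, -9, -1, 0, 4, 9, 5, 9, 1, 0, -4]]]

/-- the angular multiples -/
def kv : Fin 6 → ℕ := ![0, 1, 2, 3, 4, 11]

theorem BP : ∀ s i : Fin 6, B *ᵥ (P s i) = (6 * kv i : ℤ) • R s i := by
  decide +kernel

theorem BR : ∀ s i : Fin 6, B *ᵥ (R s i) = (-(2 * kv i) : ℤ) • P s i := by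
  decide +kernel

/-- the position of the vertex `(s, 0)` in the quotient -/
def pos (s : Fin 6) : Fin 12 := ⟨2 * s, by omega⟩

theorem sumP : ∀ s : Fin 6, P s 0 + P s 1 + P s 2 + P s 3 + P s 4 + P s 5 =
    (432 : ℤ) • (Pi.single (pos s) 1 : Fin 12 → ℤ) := by
  decide +kernel

theorem sumQ : ∀ s : Fin 6, 2 • P s 0 + P s 1 + 3 • R s 1 - P s 2 + 3 • R s 2 - 2 • P s 3 - P s 4
      - 3 • R s 4 + P s 5 - 3 • R s 5 =
    (864 : ℤ) • (Pi.single (pos (s + 1)) 1 : Fin 12 → ℤ) := by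
  decide +kernel

theorem cell_zero (s : Fin 6) : cell (s, 0) = pos s := rfl

theorem rows_zero : ∀ (v : V) (s : Fin 6), kz v (s, 0) = B (cell v) (cell (s, 0)) := by
  decide +kernel

theorem rows_succ : ∀ (v : V) (s : Fin 6),
    (∑ c : Fin 27, kz v (s, c.succ)) = B (cell v) ⟨2 * s + 1, by omega⟩ := by
  decide +kernel

/-- the lift of a vector of the quotient -/
def lift (p : Fin 12 → ℤ) : V → ℂ := fun v => ((p (cell v) : ℤ) : ℂ)

theorem lift_add (p q : Fin 12 → ℤ) : lift (p + q) = lift p + lift q := by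
  funext v; simp [lift]

theorem lift_sub (p q : Fin 12 → ℤ) : lift (p - q) = lift p - lift q := by
  funext v; simp [lift]

theorem lift_smul (a : ℤ) (p : Fin 12 → ℤ) : lift (a • p) = (a : ℝ) • lift p := by
  funext v; simp [lift]

theorem lift_single (s : Fin 6) : lift (Pi.single (pos s) 1) = Pi.single (s, 0) 1 := by
  funext v
  have h : cell v = pos s ↔ v = (s, 0) := by
    revert v s
    decide +kernel
  unfold lift
  rw [Pi.single_apply, Pi.single_apply]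
  by_cases hv : v = (s, 0)
  · rw [if_pos (h.2 hv), if_pos hv]; simp
  · rw [if_neg (fun h' => hv (h.1 h')), if_neg hv]; simp

/-- the real generator: `U(t) = exp(t K)` -/
noncomputable def K : Matrix V V ℂ := -X.skewAdj

theorem K_apply (v u : V) : K v u = ((kz v u : ℤ) : ℂ) := by
  by_cases h1 : arcB v u = true <;> by_cases h2 : arcB u v = true <;>
    simp [K, OGraph.skewAdj, kz, X, h1, h2]

theorem quotient_sum (p : Fin 12 → ℤ) (v : V) :
    ∑ u : V, kz v u * p (cell u) = (B *ᵥ p) (cell v) := by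
  rw [Fintype.sum_prod_type]
  have h1 : ∀ s : Fin 6, ∑ c : Fin 28, kz v (s, c) * p (cell (s, c)) =
      B (cell v) (pos s) * p (pos s) +
        B (cell v) ⟨2 * s + 1, by omega⟩ * p ⟨2 * s + 1, by omega⟩ := by
    intro s
    rw [Fin.sum_univ_succ]
    congr 1
    · rw [rows_zero, cell_zero]
    · rw [← rows_succ, Finset.sum_mul]
      refine Finset.sum_congr rfl fun c _ => ?_
      have : cell (s, c.succ) = ⟨2 * s + 1, by omega⟩ := by
        unfold cell
        rw [if_neg (Fin.succ_ne_zero c)]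
      rw [this]
  rw [Finset.sum_congr rfl fun s _ => h1 s]
  simp only [Matrix.mulVec, dotProduct, Fin.sum_univ_succ, Fin.sum_univ_zero, pos]
  simp only [Fin.isValue, Fin.val_zero, Fin.val_succ]
  ring_nf
  rfl

theorem K_lift (p : Fin 12 → ℤ) : K *ᵥ lift p = lift (B *ᵥ p) := by
  funext v
  unfold lift
  rw [← quotient_sum p v]
  simp only [Matrix.mulVec, dotProduct, K_apply]
  push_cast
  rfl

/-- the transfer time -/
noncomputable def τ : ℝ := Real.pi / 6 / Real.sqrt 3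

theorem evol (s i : Fin 6) : NormedSpace.exp (τ • K) *ᵥ lift (P s i) =
    Real.cos (kv i * (Real.pi / 3)) • lift (P s i) +
    (Real.sqrt 3 * Real.sin (kv i * (Real.pi / 3))) • lift (R s i) := by
  have h3 : Real.sqrt 3 * Real.sqrt 3 = 3 := Real.mul_self_sqrt (by norm_num)
  have h3' : Real.sqrt 3 ≠ 0 := by positivity
  have : Nonempty V := ⟨(0, 0)⟩
  have e1 : K *ᵥ lift (P s i) = (2 * Real.sqrt 3 * kv i) • (Real.sqrt 3 • lift (R s i)) := by
    rw [K_lift, BP, lift_smul, smul_smul]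
    have : 2 * Real.sqrt 3 * (kv i : ℝ) * Real.sqrt 3 = 6 * kv i := by
      have : 2 * Real.sqrt 3 * (kv i : ℝ) * Real.sqrt 3 =
        2 * (Real.sqrt 3 * Real.sqrt 3) * kv i := by ring
      rw [this, h3]; ring
    rw [this]
    push_cast
    rfl
  have e2 : K *ᵥ (Real.sqrt 3 • lift (R s i)) = -((2 * Real.sqrt 3 * kv i) • lift (P s i)) := by
    rw [Matrix.mulVec_smul, K_lift, BR, lift_smul, smul_smul, ← neg_smul]
    congr 1
    push_cast
    ring
  have e3 := exp_mulVec_rot e1 e2 τ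
  have e4 : 2 * Real.sqrt 3 * (kv i : ℝ) * τ = kv i * (Real.pi / 3) := by
    unfold τ
    field_simp
    ring
  rw [e3, e4, smul_smul, mul_comm (Real.sin _)]

theorem c1 : Real.cos (Real.pi / 3) = 1 / 2 := Real.cos_pi_div_three
theorem s1 : Real.sin (Real.pi / 3) = Real.sqrt 3 / 2 := Real.sin_pi_div_three
theorem c2 : Real.cos (2 * (Real.pi / 3)) = -1 / 2 := by
  rw [show 2 * (Real.pi / 3) = Real.pi - Real.pi / 3 by ring, Real.cos_pi_sub, c1]; norm_num
theorem s2 : Real.sin (2 * (Real.pi / 3)) = Real.sqrt 3 / 2 := by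
  rw [show 2 * (Real.pi / 3) = Real.pi - Real.pi / 3 by ring, Real.sin_pi_sub, s1]
theorem c3 : Real.cos (3 * (Real.pi / 3)) = -1 := by
  rw [show 3 * (Real.pi / 3) = Real.pi by ring, Real.cos_pi]
theorem s3 : Real.sin (3 * (Real.pi / 3)) = 0 := by
  rw [show 3 * (Real.pi / 3) = Real.pi by ring, Real.sin_pi]
theorem c4 : Real.cos (4 * (Real.pi / 3)) = -1 / 2 := by
  rw [show 4 * (Real.pi / 3) = Real.pi / 3 + Real.pi by ring, Real.cos_add_pi, c1]; norm_num
theorem s4 : Real.sin (4 * (Real.pi / 3)) = -(Real.sqrt 3 / 2) := by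
  rw [show 4 * (Real.pi / 3) = Real.pi / 3 + Real.pi by ring, Real.sin_add_pi, s1]
theorem c11 : Real.cos (11 * (Real.pi / 3)) = 1 / 2 := by
  rw [show 11 * (Real.pi / 3) = -(Real.pi / 3) + 2 * Real.pi + 2 * Real.pi by ring,
    Real.cos_add_two_pi, Real.cos_add_two_pi, Real.cos_neg, c1]
theorem s11 : Real.sin (11 * (Real.pi / 3)) = -(Real.sqrt 3 / 2) := by
  rw [show 11 * (Real.pi / 3) = -(Real.pi / 3) + 2 * Real.pi + 2 * Real.pi by ring,
    Real.sin_add_two_pi, Real.sin_add_two_pi, Real.sin_neg, s1]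

theorem step (s : Fin 6) : NormedSpace.exp (τ • K) *ᵥ (Pi.single (s, 0) 1 : V → ℂ) =
    (Pi.single (s + 1, 0) 1 : V → ℂ) := by
  have h3 : Real.sqrt 3 * (Real.sqrt 3 / 2) = 3 / 2 := by
    rw [← mul_div_assoc, Real.mul_self_sqrt (by norm_num)]
  have h3n : Real.sqrt 3 * -(Real.sqrt 3 / 2) = -(3 / 2) := by rw [mul_neg, h3]
  have e0 := evol s 0
  have e1 := evol s 1
  have e2 := evol s 2
  have e3 := evol s 3
  have e4 := evol s 4
  have e5 := evol s 5
  have k0 : ((kv 0 : ℕ) : ℝ) = 0 := by simp [kv]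
  have k1 : ((kv 1 : ℕ) : ℝ) = 1 := by simp [kv]
  have k2 : ((kv 2 : ℕ) : ℝ) = 2 := by simp [kv]
  have k3 : ((kv 3 : ℕ) : ℝ) = 3 := by simp [kv]
  have k4 : ((kv 4 : ℕ) : ℝ) = 4 := by simp [kv]
  have k5 : ((kv 5 : ℕ) : ℝ) = 11 := by simp [kv]
  rw [k0, zero_mul, Real.cos_zero, Real.sin_zero, mul_zero, zero_smul, add_zero] at e0
  rw [k1, one_mul, c1, s1, h3] at e1
  rw [k2, c2, s2, h3] at e2
  rw [k3, c3, s3, mul_zero, zero_smul, add_zero] at e3
  rw [k4, c4, s4, h3n] at e4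
  rw [k5, c11, s11, h3n] at e5
  have hs : (Pi.single (s, 0) 1 : V → ℂ) = (1 / 432 : ℝ) • (lift (P s 0) + lift (P s 1) +
      lift (P s 2) + lift (P s 3) + lift (P s 4) + lift (P s 5)) := by
    rw [← lift_add, ← lift_add, ← lift_add, ← lift_add, ← lift_add, sumP, lift_smul, smul_smul,
      lift_single]
    norm_num
  have hs' : (Pi.single (s + 1, 0) 1 : V → ℂ) = (1 / 864 : ℝ) • ((2 : ℝ) • lift (P s 0) +
      lift (P s 1) + (3 : ℝ) • lift (R s 1) - lift (P s 2) + (3 : ℝ) • lift (R s 2) -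
      (2 : ℝ) • lift (P s 3) - lift (P s 4) - (3 : ℝ) • lift (R s 4) + lift (P s 5) -
      (3 : ℝ) • lift (R s 5)) := by
    have g2 : ∀ p : Fin 12 → ℤ, (2 : ℝ) • lift p = lift ((2 : ℤ) • p) := fun p => by
      rw [lift_smul]; norm_num
    have g3 : ∀ p : Fin 12 → ℤ, (3 : ℝ) • lift p = lift ((3 : ℤ) • p) := fun p => by
      rw [lift_smul]; norm_num
    have hQ := sumQ s
    have hQ' : (2 : ℤ) • P s 0 + P s 1 + (3 : ℤ) • R s 1 - P s 2 + (3 : ℤ) • R s 2
        - (2 : ℤ) • P s 3 - P s 4 - (3 : ℤ) • R s 4 + P s 5 - (3 : ℤ) • R s 5 =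
        (864 : ℤ) • (Pi.single (pos (s + 1)) 1 : Fin 12 → ℤ) := by
      rw [← hQ]
      rfl
    rw [g2, g2, g3, g3, g3, g3, ← lift_add, ← lift_add, ← lift_sub, ← lift_add, ← lift_sub,
      ← lift_sub, ← lift_sub, ← lift_add, ← lift_sub, hQ', lift_smul, smul_smul, lift_single]
    norm_num
  rw [hs, Matrix.mulVec_smul, Matrix.mulVec_add, Matrix.mulVec_add, Matrix.mulVec_add,
    Matrix.mulVec_add, Matrix.mulVec_add, e0, e1, e2, e3, e4, e5, hs']
  module

theorem U_eq (t : ℝ) : X.U t = NormedSpace.exp (t • K) := by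
  have h : (Complex.I * (t : ℂ)) • X.herm = t • K := by
    ext a b
    simp only [OGraph.herm, K, Matrix.smul_apply, Matrix.neg_apply, smul_eq_mul,
      Complex.real_smul]
    have : Complex.I * (t : ℂ) * (Complex.I * X.skewAdj a b) =
      (Complex.I * Complex.I) * (t : ℂ) * X.skewAdj a b := by ring
    rw [this, Complex.I_mul_I]
    ring
  unfold OGraph.U
  rw [h]

theorem steps (j : ℕ) (s : Fin 6) : NormedSpace.exp ((j * τ) • K) *ᵥ
    (Pi.single (s, 0) 1 : V → ℂ) = (Pi.single ((fun x : Fin 6 => x + 1)^[j] s, 0) 1 : V → ℂ) := by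
  induction j with
  | zero =>
    rw [Nat.cast_zero, zero_mul, zero_smul, NormedSpace.exp_zero, Matrix.one_mulVec]
    rfl
  | succ j ih =>
    have h1 : (((j + 1 : ℕ) : ℝ) * τ) • K = τ • K + ((j : ℝ) * τ) • K := by
      push_cast
      rw [← add_smul]
      congr 1
      ring
    have h2 : Commute (τ • K) (((j : ℝ) * τ) • K) :=
      ((Commute.refl K).smul_left τ).smul_right ((j : ℝ) * τ)
    rw [h1, Matrix.exp_add_of_commute _ _ h2, ← Matrix.mulVec_mulVec, ih, step,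
      Function.iterate_succ_apply']

theorem reach : ∀ s s' : Fin 6, ∃ j : Fin 6, (fun x : Fin 6 => x + 1)^[(j : ℕ)] s = s' := by
  decide

/-- There is an oriented graph with multiple state transfer on a set of six vertices. -/
theorem result : ∃ (V : Type) (_ : Fintype V) (_ : DecidableEq V) (X : OGraph V) (S : Finset V),
    S.card = 6 ∧ MST X S := by
  refine ⟨V, inferInstance, inferInstance, X, Finset.univ.image fun s : Fin 6 => ((s, 0) : V),
    ?_, ?_, ?_⟩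
  · decide +kernel
  · decide +kernel
  · intro a ha b hb _
    obtain ⟨s, -, rfl⟩ := Finset.mem_image.1 ha
    obtain ⟨s', -, rfl⟩ := Finset.mem_image.1 hb
    obtain ⟨j, hj⟩ := reach s s'
    exact ⟨((j : ℕ) : ℝ) * τ, 1, by rw [U_eq, steps, one_smul, hj]⟩

end Pool.Agent.Results.MP_3865e9_co.SixTransfer
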